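import Mathlib

set_option autoImplicit false

open Filter Topology

namespace Pool.Agent.Results.MP_43e0cc_an.NotProduct

/-- the space `ℓ_p(X)` of bilateral sequences -/
abbrev EllP (X : Type) [NormedAddCommGroup X] (p : ENNReal) : Type := lp (fun _ : ℤ => X) p

/-- bounded operators on `ℓ_p(X)` -/
abbrev Op (𝕜 X : Type) [RCLike 𝕜] [NormedAddCommGroup X] [NormedSpace 𝕜 X] (p : ENNReal)
    [Fact (1 ≤ p)] : Type := EllP X p →L[𝕜] EllP X p

/-- bounded linear bijections of `ℓ_p(X)` onto `ℓ_p(𝕜)^k` -/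
abbrev Iso (𝕜 X : Type) [RCLike 𝕜] [NormedAddCommGroup X] [NormedSpace 𝕜 X] (p : ENNReal)
    [Fact (1 ≤ p)] (k : ℕ) : Type := EllP X p ≃L[𝕜] (Fin k → EllP 𝕜 p)

/-- `T` is the shift operator `σ_S` on `ℓ_p(X)` generated by the family `S` -/
def IsShiftOf {𝕜 X : Type} [RCLike 𝕜] [NormedAddCommGroup X] [NormedSpace 𝕜 X] {p : ENNReal}
    [Fact (1 ≤ p)] (S : ℤ → X ≃L[𝕜] X) (T : Op 𝕜 X p) : Prop :=
  ∀ (x : EllP X p) (n : ℤ), T x n = S (n + 1) (x (n + 1))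

/-- `B` is the weighted backward shift `B_w` on `ℓ_p(𝕜)` -/
def IsWeightedShift {𝕜 : Type} [RCLike 𝕜] {p : ENNReal} [Fact (1 ≤ p)] (w : ℤ → 𝕜)
    (B : Op 𝕜 𝕜 p) : Prop :=
  ∀ (x : EllP 𝕜 p) (n : ℤ), B x n = w (n + 1) * x (n + 1)

/-- the family `S` and its inverses are uniformly bounded -/
def IsBoundedFamily {𝕜 X : Type} [RCLike 𝕜] [NormedAddCommGroup X] [NormedSpace 𝕜 X]
    (S : ℤ → X ≃L[𝕜] X) : Prop :=
  ∃ C : ℝ, ∀ n, ‖(S n : X →L[𝕜] X)‖ ≤ C ∧ ‖((S n).symm : X →L[𝕜] X)‖ ≤ C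

/-- the weights are bounded and bounded away from `0` -/
def IsWeight {𝕜 : Type} [RCLike 𝕜] (w : ℤ → 𝕜) : Prop :=
  ∃ c C : ℝ, 0 < c ∧ ∀ n, c ≤ ‖w n‖ ∧ ‖w n‖ ≤ C

/-- `T` is linearly conjugate to the product of the operators `B_i`, acting coordinatewise on
`ℓ_p(𝕜)^k` -/
def IsConjToProduct {𝕜 X : Type} [RCLike 𝕜] [NormedAddCommGroup X] [NormedSpace 𝕜 X]
    {p : ENNReal} [Fact (1 ≤ p)] {k : ℕ} (T : Op 𝕜 X p) (B : Fin k → Op 𝕜 𝕜 p) : Prop :=
  ∃ H : Iso 𝕜 X p k, ∀ (x : EllP X p) (i : Fin k), H (T x) i = B i (H x i)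

section Ops

variable {𝕜 X : Type} [RCLike 𝕜] [NormedAddCommGroup X] [NormedSpace 𝕜 X] {p : ENNReal}
    [hp1 : Fact (1 ≤ p)]

theorem p_pos (hp : p ≠ ⊤) : 0 < p.toReal :=
  ENNReal.toReal_pos (lt_of_lt_of_le one_pos hp1.out).ne' hp

theorem op_mem (hp : p ≠ ⊤) (A : X →L[𝕜] X) (n : ℤ) (x : lp (fun _ : ℤ => X) p) :
    Memℓp (fun m => A (x (m + n))) p := by
  have h0 := p_pos hp
  have hx := lp.memℓp x
  rw [memℓp_gen_iff h0] at hx ⊢
  have h1 : Summable fun m : ℤ => ‖A‖ ^ p.toReal * ‖x (m + n)‖ ^ p.toReal :=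
    (hx.comp_injective (add_left_injective n)).mul_left _
  refine Summable.of_nonneg_of_le (fun m => by positivity) (fun m => ?_) h1
  rw [← Real.mul_rpow (norm_nonneg _) (norm_nonneg _)]
  exact Real.rpow_le_rpow (norm_nonneg _) (A.le_opNorm _) h0.le

theorem op_norm (hp : p ≠ ⊤) (A : X →L[𝕜] X) (n : ℤ) (x : lp (fun _ : ℤ => X) p) :
    ‖(⟨fun m => A (x (m + n)), op_mem hp A n x⟩ : lp (fun _ : ℤ => X) p)‖ ≤ ‖A‖ * ‖x‖ := by
  have h0 := p_pos hp
  have hx := lp.memℓp x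
  rw [memℓp_gen_iff h0] at hx
  refine lp.norm_le_of_tsum_le h0 (by positivity) ?_
  rw [Real.mul_rpow (norm_nonneg _) (norm_nonneg _), lp.norm_rpow_eq_tsum h0,
    ← (Equiv.addRight n).tsum_eq (fun m => ‖x m‖ ^ p.toReal), ← tsum_mul_left]
  have h1 : Summable fun m : ℤ => ‖A‖ ^ p.toReal * ‖x (m + n)‖ ^ p.toReal :=
    (hx.comp_injective (add_left_injective n)).mul_left _
  have h2 : ∀ m : ℤ, ‖A (x (m + n))‖ ^ p.toReal ≤ ‖A‖ ^ p.toReal * ‖x (m + n)‖ ^ p.toReal := by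
    intro m
    rw [← Real.mul_rpow (norm_nonneg _) (norm_nonneg _)]
    exact Real.rpow_le_rpow (norm_nonneg _) (A.le_opNorm _) h0.le
  exact Summable.tsum_le_tsum h2 (Summable.of_nonneg_of_le (fun m => by positivity) h2 h1) h1

/-- the operator `x ↦ (A x_{m+n})_m` -/
noncomputable def op (hp : p ≠ ⊤) (A : X →L[𝕜] X) (n : ℤ) :
    lp (fun _ : ℤ => X) p →L[𝕜] lp (fun _ : ℤ => X) p :=
  LinearMap.mkContinuous
    { toFun := fun x => ⟨fun m => A (x (m + n)), op_mem hp A n x⟩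
      map_add' := fun x y => by
        ext m
        exact map_add A _ _
      map_smul' := fun c x => by
        ext m
        exact map_smul A _ _ } ‖A‖ (op_norm hp A n)

theorem op_apply (hp : p ≠ ⊤) (A : X →L[𝕜] X) (n : ℤ) (x : lp (fun _ : ℤ => X) p) (m : ℤ) :
    op hp A n x m = A (x (m + n)) := rfl

theorem op_le (hp : p ≠ ⊤) (A : X →L[𝕜] X) (n : ℤ) (x : lp (fun _ : ℤ => X) p) :
    ‖op hp A n x‖ ≤ ‖A‖ * ‖x‖ := op_norm hp A n x

theorem op_op (hp : p ≠ ⊤) (A B : X →L[𝕜] X) (n k : ℤ) (x : lp (fun _ : ℤ => X) p) :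
    op hp A n (op hp B k x) = op hp (A * B) (n + k) x := by
  ext m
  rw [op_apply, op_apply, op_apply, mul_apply_eq_comp, add_assoc]

theorem op_one_norm (hp : p ≠ ⊤) (n : ℤ) (x : lp (fun _ : ℤ => X) p) :
    ‖op hp (1 : X →L[𝕜] X) n x‖ = ‖x‖ := by
  have h1 : ∀ (n : ℤ) (x : lp (fun _ : ℤ => X) p), ‖op hp (1 : X →L[𝕜] X) n x‖ ≤ ‖x‖ := by
    intro n x
    calc _ ≤ ‖(1 : X →L[𝕜] X)‖ * ‖x‖ := op_le hp _ _ _
      _ ≤ 1 * ‖x‖ := by gcongr; exact ContinuousLinearMap.norm_id_le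
      _ = _ := one_mul _
  refine le_antisymm (h1 n x) ?_
  have h2 : op hp (1 : X →L[𝕜] X) (-n) (op hp (1 : X →L[𝕜] X) n x) = x := by
    ext m
    rw [op_apply, op_apply]
    simp
  calc ‖x‖ = ‖op hp (1 : X →L[𝕜] X) (-n) (op hp (1 : X →L[𝕜] X) n x)‖ := by rw [h2]
    _ ≤ _ := h1 _ _

end Ops

/-- normalised orbit coefficients of a weighted shift -/
theorem exists_rho {𝕜 : Type} [RCLike 𝕜] (w : ℤ → 𝕜) (hw : ∀ n, w n ≠ 0) :
    ∃ ρ : ℤ → 𝕜, ρ 0 = 1 ∧ (∀ m, ρ m ≠ 0) ∧ ∀ m, ρ (m - 1) = w m * ρ m := by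
  let ρ : ℤ → 𝕜 := fun m => if 0 ≤ m then ∏ j ∈ Finset.range m.toNat, (w (j + 1))⁻¹ else
    ∏ j ∈ Finset.range (-m).toNat, w (-j)
  have hneg : ∀ m : ℤ, m ≤ 0 → ρ m = ∏ j ∈ Finset.range (-m).toNat, w (-j) := by
    intro m hm
    by_cases h0 : 0 ≤ m
    · have : m = 0 := le_antisymm hm h0
      subst this
      simp [ρ]
    · simp [ρ, h0]
  have hpos : ∀ m : ℤ, 0 ≤ m → ρ m = ∏ j ∈ Finset.range m.toNat, (w (j + 1))⁻¹ := by
    intro m hm
    simp [ρ, hm]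
  refine ⟨ρ, by simp [ρ], fun m => ?_, fun m => ?_⟩
  · rcases le_total 0 m with h | h
    · rw [hpos m h]
      exact Finset.prod_ne_zero_iff.2 fun j _ => inv_ne_zero (hw _)
    · rw [hneg m h]
      exact Finset.prod_ne_zero_iff.2 fun j _ => hw _
  · rcases le_or_gt m 0 with h | h
    · rw [hneg m h, hneg (m - 1) (by omega)]
      have e : (-(m - 1)).toNat = (-m).toNat + 1 := by omega
      rw [e, Finset.prod_range_succ, mul_comm]
      congr 2
      omega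
    · rw [hpos m h.le, hpos (m - 1) (by omega)]
      have e : m.toNat = (m - 1).toNat + 1 := by omega
      rw [e, Finset.prod_range_succ]
      have e2 : (((m - 1).toNat : ℤ) + 1) = m := by omega
      rw [e2, mul_comm (w m), mul_assoc, inv_mul_cancel₀ (hw m), mul_one]

section Jordan

variable {𝕜 X : Type} [RCLike 𝕜] [NormedAddCommGroup X] [NormedSpace 𝕜 X]

/-- powers of a unipotent operator -/
noncomputable def Jn (N : X →L[𝕜] X) (n : ℤ) : X →L[𝕜] X := 1 + (n : 𝕜) • N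

theorem Jn_mul (N : X →L[𝕜] X) (hN : N * N = 0) (n m : ℤ) : Jn N n * Jn N m = Jn N (n + m) := by
  unfold Jn
  rw [mul_add, add_mul, add_mul, smul_mul_smul_comm, hN, smul_zero, add_zero, one_mul, one_mul,
    mul_one]
  push_cast
  module

theorem Jn_zero (N : X →L[𝕜] X) : Jn N 0 = 1 := by
  unfold Jn
  rw [Int.cast_zero, zero_smul, add_zero]

theorem QJ (N Q : X →L[𝕜] X) (hQN : Q * N = 0) (n : ℤ) : Q * Jn N n = Q := by
  unfold Jn
  rw [mul_add, mul_smul_comm, hQN, smul_zero, add_zero, mul_one]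

/-- the unipotent operator as an equivalence -/
noncomputable def J (N : X →L[𝕜] X) (hN : N * N = 0) : X ≃L[𝕜] X :=
  ContinuousLinearEquiv.equivOfInverse (Jn N 1) (Jn N (-1))
    (fun v => by
      rw [← mul_apply_eq_comp, Jn_mul N hN, neg_add_cancel, Jn_zero, one_apply_eq_self])
    (fun v => by
      rw [← mul_apply_eq_comp, Jn_mul N hN, add_neg_cancel, Jn_zero, one_apply_eq_self])

variable {p : ENNReal} [hp1 : Fact (1 ≤ p)]

/-- the main argument, for a nilpotent `N` and a projection `Q` with `QN = 0`, `NQ = N` -/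
theorem main (hp : p ≠ ⊤) (N Q : X →L[𝕜] X) (hN : N * N = 0) (hQN : Q * N = 0) (hNQ : N * Q = N)
    (hQQ : Q * Q = Q) (v0 : X) (hv0 : N v0 ≠ 0) (k : ℕ) (w : Fin k → ℤ → 𝕜)
    (B : Fin k → lp (fun _ : ℤ => 𝕜) p →L[𝕜] lp (fun _ : ℤ => 𝕜) p)
    (hw0 : ∀ i n, w i n ≠ 0) (hB : ∀ i, IsWeightedShift (w i) (B i))
    (H : lp (fun _ : ℤ => X) p ≃L[𝕜] (Fin k → lp (fun _ : ℤ => 𝕜) p))
    (hH : ∀ x, H (op hp (Jn N 1) 1 x) = fun i => B i (H x i)) : False := by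
  classical
  choose ρ hρ0 hρne hρ using fun i => exists_rho (w i) (hw0 i)
  -- orbits
  let orb : lp (fun _ : ℤ => X) p → ℤ → lp (fun _ : ℤ => X) p :=
    fun v n => op hp (Jn N n) n v
  have horb0 : ∀ v, orb v 0 = v := by
    intro v
    ext m
    show Jn N 0 (v (m + 0)) = _
    rw [Jn_zero, add_zero]
    rfl
  have horbS : ∀ v n, op hp (Jn N 1) 1 (orb v n) = orb v (n + 1) := by
    intro v n
    show op hp (Jn N 1) 1 (op hp (Jn N n) n v) = op hp (Jn N (n + 1)) (n + 1) v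
    rw [op_op, Jn_mul N hN, add_comm 1 n]
  -- coordinate formula
  have hF : ∀ (v : lp (fun _ : ℤ => X) p) (i : Fin k) (n m : ℤ),
      H (orb v n) i (m - n) * ρ i m = H v i m * ρ i (m - n) := by
    intro v i n
    have hstep : ∀ n m : ℤ, H (orb v (n + 1)) i (m - (n + 1)) =
        w i (m - n) * H (orb v n) i (m - n) := by
      intro n m
      rw [← horbS, hH]
      show B i (H (orb v n) i) (m - (n + 1)) = _
      rw [hB i]
      rw [show m - (n + 1) + 1 = m - n by ring]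
    have hr : ∀ n m : ℤ, ρ i (m - (n + 1)) = w i (m - n) * ρ i (m - n) := by
      intro n m
      rw [← hρ]
      congr 1
      ring
    induction n using Int.induction_on with
    | zero => intro m; rw [horb0, sub_zero]
    | succ n ih =>
      intro m
      rw [hstep, hr, mul_assoc, ih]
      ring
    | pred n ih =>
      intro m
      have h1 := ih m
      have h2 := hstep (-(n : ℤ) - 1) m
      have h3 := hr (-(n : ℤ) - 1) m
      rw [sub_add_cancel] at h2 h3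
      rw [h2, h3] at h1
      apply mul_left_cancel₀ (hw0 i (m - (-(n : ℤ) - 1)))
      linear_combination h1
  -- norm estimates for `orb`
  have hQorb : ∀ v n, op hp Q 0 (orb v n) = op hp (1 : X →L[𝕜] X) n (op hp Q 0 v) := by
    intro v n
    show op hp Q 0 (op hp (Jn N n) n v) = _
    rw [op_op, op_op, QJ N Q hQN, one_mul, zero_add, add_zero]
  have hker : ∀ v, op hp Q 0 v = 0 → ∀ n, orb v n = op hp (1 : X →L[𝕜] X) n v := by
    intro v hv n
    ext m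
    show Jn N n (v (m + n)) = v (m + n)
    have h1 : Q (v (m + n)) = 0 := by
      have := congrArg (fun u : lp (fun _ : ℤ => X) p => u (m + n)) hv
      have h2 : Q (v (m + n + 0)) = 0 := this
      rwa [add_zero] at h2
    have h2 : N (v (m + n)) = 0 := by
      rw [← hNQ, mul_apply_eq_comp, h1, map_zero]
    show (1 + (n : 𝕜) • N) (v (m + n)) = _
    rw [add_apply, smul_apply, h2, smul_zero, add_zero, one_apply_eq_self]
  have hQnorm : ∀ v, ‖op hp Q 0 v‖ ≤ ‖Q‖ * ‖v‖ := op_le hp Q 0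
  have hlow : ∀ v : lp (fun _ : ℤ => X) p, v ≠ 0 → ∃ c : ℝ, 0 < c ∧ ∀ n, c ≤ ‖orb v n‖ := by
    intro v hv
    by_cases h0 : op hp Q 0 v = 0
    · refine ⟨‖v‖, norm_pos_iff.2 hv, fun n => ?_⟩
      rw [hker v h0 n, op_one_norm]
    · have h1 : 0 < ‖op hp Q 0 v‖ := norm_pos_iff.2 h0
      refine ⟨‖op hp Q 0 v‖ / (‖Q‖ + 1), by positivity, fun n => ?_⟩
      rw [div_le_iff₀ (by positivity)]
      calc ‖op hp Q 0 v‖ = ‖op hp Q 0 (orb v n)‖ := by rw [hQorb, op_one_norm]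
        _ ≤ ‖Q‖ * ‖orb v n‖ := hQnorm _
        _ ≤ ‖orb v n‖ * (‖Q‖ + 1) := by nlinarith [norm_nonneg (orb v n), norm_nonneg Q]
  have hH1 : ∀ v, ‖H v‖ ≤
      ‖(H : lp (fun _ : ℤ => X) p →L[𝕜] (Fin k → lp (fun _ : ℤ => 𝕜) p))‖ * ‖v‖ := fun v =>
    (H : lp (fun _ : ℤ => X) p →L[𝕜] (Fin k → lp (fun _ : ℤ => 𝕜) p)).le_opNorm v
  have hH2 : ∀ u, ‖H.symm u‖ ≤
      ‖(H.symm : (Fin k → lp (fun _ : ℤ => 𝕜) p) →L[𝕜] lp (fun _ : ℤ => X) p)‖ * ‖u‖ :=
    fun u => (H.symm : (Fin k → lp (fun _ : ℤ => 𝕜) p) →L[𝕜] lp (fun _ : ℤ => X) p).le_opNorm u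
  set K1 := ‖(H : lp (fun _ : ℤ => X) p →L[𝕜] (Fin k → lp (fun _ : ℤ => 𝕜) p))‖ with hK1
  set K2 := ‖(H.symm : (Fin k → lp (fun _ : ℤ => 𝕜) p) →L[𝕜] lp (fun _ : ℤ => X) p)‖ with hK2
  have hcoord : ∀ (u : Fin k → lp (fun _ : ℤ => 𝕜) p) (i : Fin k) (m : ℤ), ‖u i m‖ ≤ ‖u‖ :=
    fun u i m => (lp.norm_apply_le_norm (lt_of_lt_of_le one_pos hp1.out).ne' _ m).trans
      (norm_le_pi_norm u i)
  -- each `ρ i` is bounded above
  have habove : ∀ i, ∃ C : ℝ, ∀ m, ‖ρ i m‖ ≤ C := by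
    intro i
    by_contra hcon
    push Not at hcon
    have hz : ∀ v, op hp Q 0 v = 0 → ∀ m, H v i m = 0 := by
      intro v hv m
      by_contra hne
      obtain ⟨l, hl⟩ := hcon (K1 * ‖v‖ * ‖ρ i m‖ / ‖H v i m‖)
      have h1 := hF v i (m - l) m
      rw [show m - (m - l) = l by ring] at h1
      have h2 : ‖H v i m‖ * ‖ρ i l‖ = ‖H (orb v (m - l)) i l‖ * ‖ρ i m‖ := by
        rw [← norm_mul, ← norm_mul, h1]
      have h3 : ‖H (orb v (m - l)) i l‖ ≤ K1 * ‖v‖ := by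
        refine (hcoord _ _ _).trans ((hH1 _).trans ?_)
        rw [hker v hv, op_one_norm]
      have h4 : 0 < ‖H v i m‖ := norm_pos_iff.2 hne
      rw [div_lt_iff₀ h4] at hl
      have h5 : ‖H (orb v (m - l)) i l‖ * ‖ρ i m‖ ≤ K1 * ‖v‖ * ‖ρ i m‖ :=
        mul_le_mul_of_nonneg_right h3 (norm_nonneg _)
      linarith [mul_comm ‖H v i m‖ ‖ρ i l‖]
    -- apply to the basis vector
    let e : Fin k → lp (fun _ : ℤ => 𝕜) p := Pi.single i (lp.single p 0 (1 : 𝕜))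
    let x := H.symm e
    have hx : H x = e := H.apply_symm_apply e
    have he0 : e i 0 = 1 := by
      show (Pi.single i (lp.single p 0 (1 : 𝕜)) : Fin k → lp (fun _ : ℤ => 𝕜) p) i 0 = 1
      rw [Pi.single_eq_same, lp.single_apply_self]
    obtain ⟨l, hl⟩ := hcon (K1 * ‖op hp Q 0 x‖)
    have h1 := hF x i (0 - l) 0
    rw [show (0 : ℤ) - (0 - l) = l by ring, hρ0, hx, he0, mul_one, one_mul] at h1
    have h2 : H (orb x (0 - l)) i l = H (op hp Q 0 (orb x (0 - l))) i l := by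
      have h3' : ∀ u : lp (fun _ : ℤ => X) p, op hp Q 0 (u - op hp Q 0 u) = 0 := fun u => by
        rw [map_sub, op_op, hQQ, add_zero, sub_self]
      have h3 := h3' (orb x (0 - l))
      have h4 := hz _ h3 l
      rw [map_sub] at h4
      have h5 : H (orb x (0 - l)) i l - H (op hp Q 0 (orb x (0 - l))) i l = 0 := h4
      exact sub_eq_zero.1 h5
    have h6 : ‖ρ i l‖ ≤ K1 * ‖op hp Q 0 x‖ := by
      rw [← h1, h2]
      refine (hcoord _ _ _).trans ((hH1 _).trans ?_)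
      rw [hQorb, op_one_norm]
    linarith
  -- each `ρ i` is bounded below
  have hbelow : ∀ i, ∃ c : ℝ, 0 < c ∧ ∀ m, c ≤ ‖ρ i m‖ := by
    intro i
    let e : Fin k → lp (fun _ : ℤ => 𝕜) p := Pi.single i (lp.single p 0 (1 : 𝕜))
    let x := H.symm e
    have hx : H x = e := H.apply_symm_apply e
    have he0 : e i 0 = 1 := by
      show (Pi.single i (lp.single p 0 (1 : 𝕜)) : Fin k → lp (fun _ : ℤ => 𝕜) p) i 0 = 1
      rw [Pi.single_eq_same, lp.single_apply_self]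
    have hx0 : x ≠ 0 := by
      intro h
      rw [h, map_zero] at hx
      rw [← hx] at he0
      exact zero_ne_one he0
    obtain ⟨c, hc, hcn⟩ := hlow x hx0
    have hform : ∀ n : ℤ, H (orb x n) = Pi.single i (lp.single p (-n) (ρ i (-n))) := by
      intro n
      funext i'
      by_cases hi : i' = i
      · subst hi
        rw [Pi.single_eq_same]
        ext m
        have h1 := hF x i' n (m + n)
        rw [add_sub_cancel_right, hx] at h1
        by_cases hm : m = -n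
        · subst hm
          rw [neg_add_cancel, hρ0, he0, mul_one, one_mul] at h1
          rw [lp.single_apply_self]
          exact h1
        · rw [lp.single_apply_ne _ _ _ hm]
          have h2 : e i' (m + n) = 0 := by
            show (Pi.single i' (lp.single p 0 (1 : 𝕜)) : Fin k → lp (fun _ : ℤ => 𝕜) p) i' (m + n) = 0
            rw [Pi.single_eq_same, lp.single_apply_ne _ _ _ (by omega)]
          rw [h2, zero_mul] at h1
          exact (mul_eq_zero.1 h1).resolve_right (hρne _ _)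
      · rw [Pi.single_eq_of_ne hi]
        ext m
        have h1 := hF x i' n (m + n)
        have h2 : e i' (m + n) = 0 := by
          show (Pi.single i (lp.single p 0 (1 : 𝕜)) : Fin k → lp (fun _ : ℤ => 𝕜) p) i' (m + n) = 0
          rw [Pi.single_eq_of_ne hi]
          rfl
        rw [add_sub_cancel_right, hx, h2, zero_mul] at h1
        exact (mul_eq_zero.1 h1).resolve_right (hρne _ _)
    refine ⟨c / (K2 + 1), by positivity, fun m => ?_⟩
    rw [div_le_iff₀ (by positivity)]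
    have h1 := hcn (-m)
    have h2 : ‖orb x (-m)‖ ≤ K2 * ‖ρ i m‖ := by
      have h3 : orb x (-m) = H.symm (H (orb x (-m))) := (H.symm_apply_apply _).symm
      rw [h3]
      refine (hH2 _).trans (mul_le_mul_of_nonneg_left ?_ (norm_nonneg _))
      rw [hform, neg_neg]
      rw [Pi.norm_single, lp.norm_single (lt_of_lt_of_le one_pos hp1.out)]
    nlinarith [norm_nonneg (ρ i m)]
  choose C hC using habove
  choose c hc hcm using hbelow
  have hC0 : ∀ i, 0 ≤ C i := fun i => (norm_nonneg _).trans (hC i 0)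
  -- boundedness of the orbit of a single vector
  let x : lp (fun _ : ℤ => X) p := lp.single p 0 v0
  let K : ℝ := ∑ i, C i / c i
  have hK0 : ∀ i, 0 ≤ C i / c i := fun i => div_nonneg (hC0 i) (hc i).le
  have hbd : ∀ n : ℤ, ‖H (orb x n)‖ ≤ K * ‖H x‖ := by
    intro n
    have hKnn : 0 ≤ K := Finset.sum_nonneg fun i _ => hK0 i
    refine (pi_norm_le_iff_of_nonneg (by positivity)).2 fun i => ?_
    have h1 : ∀ m, ‖H (orb x n) i m‖ ≤ ‖(((C i / c i : ℝ) : 𝕜) • op hp (1 : 𝕜 →L[𝕜] 𝕜) n (H x i)) m‖ := by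
      intro m
      have h2 := hF x i n (m + n)
      rw [add_sub_cancel_right] at h2
      have h3 : ‖H (orb x n) i m‖ * ‖ρ i (m + n)‖ = ‖H x i (m + n)‖ * ‖ρ i m‖ := by
        rw [← norm_mul, ← norm_mul, h2]
      have h4 : (((C i / c i : ℝ) : 𝕜) • op hp (1 : 𝕜 →L[𝕜] 𝕜) n (H x i)) m =
          ((C i / c i : ℝ) : 𝕜) * H x i (m + n) := rfl
      rw [h4, norm_mul, RCLike.norm_ofReal, abs_of_nonneg (hK0 i), div_mul_eq_mul_div,
        le_div_iff₀ (hc i)]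
      calc ‖H (orb x n) i m‖ * c i ≤ ‖H (orb x n) i m‖ * ‖ρ i (m + n)‖ :=
            mul_le_mul_of_nonneg_left (hcm i _) (norm_nonneg _)
        _ = ‖H x i (m + n)‖ * ‖ρ i m‖ := h3
        _ ≤ ‖H x i (m + n)‖ * C i := mul_le_mul_of_nonneg_left (hC i m) (norm_nonneg _)
        _ = C i * ‖H x i (m + n)‖ := mul_comm _ _
    have h5 : ‖H (orb x n) i‖ ≤ ‖((C i / c i : ℝ) : 𝕜) • op hp (1 : 𝕜 →L[𝕜] 𝕜) n (H x i)‖ := by
      have h0 := p_pos hp
      have h6 := lp.memℓp (((C i / c i : ℝ) : 𝕜) • op hp (1 : 𝕜 →L[𝕜] 𝕜) n (H x i))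
      rw [memℓp_gen_iff h0] at h6
      have h7 : ∀ m, ‖H (orb x n) i m‖ ^ p.toReal ≤
          ‖(((C i / c i : ℝ) : 𝕜) • op hp (1 : 𝕜 →L[𝕜] 𝕜) n (H x i)) m‖ ^ p.toReal := fun m =>
        Real.rpow_le_rpow (norm_nonneg _) (h1 m) h0.le
      refine lp.norm_le_of_tsum_le h0 (norm_nonneg _) ?_
      rw [lp.norm_rpow_eq_tsum h0]
      exact Summable.tsum_le_tsum h7
        (Summable.of_nonneg_of_le (fun m => by positivity) h7 h6) h6
    rw [norm_smul, RCLike.norm_ofReal, abs_of_nonneg (hK0 i), op_one_norm] at h5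
    calc _ ≤ C i / c i * ‖H x i‖ := h5
      _ ≤ K * ‖H x‖ := mul_le_mul (Finset.single_le_sum (fun i _ => hK0 i) (Finset.mem_univ i))
          (norm_le_pi_norm _ i) (norm_nonneg _) hKnn
  have hbd2 : ∀ n : ℤ, ‖orb x n‖ ≤ K2 * (K * ‖H x‖) := by
    intro n
    have h3 : orb x n = H.symm (H (orb x n)) := (H.symm_apply_apply _).symm
    rw [h3]
    exact (hH2 _).trans (mul_le_mul_of_nonneg_left (hbd n) (norm_nonneg _))
  -- but the orbit is unbounded
  have hNv : 0 < ‖N v0‖ := norm_pos_iff.2 hv0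
  obtain ⟨n, hn⟩ := exists_nat_gt ((K2 * (K * ‖H x‖) + ‖v0‖) / ‖N v0‖)
  rw [div_lt_iff₀ hNv] at hn
  have h1 : orb x n (-(n : ℤ)) = v0 + (n : 𝕜) • N v0 := by
    show Jn N n (x (-(n : ℤ) + n)) = _
    have h2 : x (-(n : ℤ) + n) = v0 := by
      rw [neg_add_cancel]
      exact lp.single_apply_self _ _ _
    rw [h2]
    show (1 + ((n : ℤ) : 𝕜) • N) v0 = _
    rw [add_apply, smul_apply, one_apply_eq_self, Int.cast_natCast]
  have h2 : ‖orb x n (-(n : ℤ))‖ ≤ ‖orb x n‖ :=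
    lp.norm_apply_le_norm (lt_of_lt_of_le one_pos hp1.out).ne' _ _
  have h3 : (n : ℝ) * ‖N v0‖ - ‖v0‖ ≤ ‖v0 + (n : 𝕜) • N v0‖ := by
    have h4 := norm_sub_norm_le ((n : 𝕜) • N v0) (-v0)
    rw [norm_neg, sub_neg_eq_add, norm_smul, RCLike.norm_natCast] at h4
    rw [add_comm v0]
    exact h4
  have h5 := hbd2 n
  rw [h1] at h2
  linarith

end Jordan

/-- There are shift operators generated by invertible `2 × 2` matrices that are not linearly
conjugate to any finite product of weighted backward shifts; for `𝕜 = ℝ` or `ℂ` and all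
`1 ≤ p < ∞`. -/
theorem result (𝕜 : Type) [RCLike 𝕜] (p : ENNReal) [hp1 : Fact (1 ≤ p)] (hp : p ≠ ⊤) :
    ∃ (S : ℤ → EuclideanSpace 𝕜 (Fin 2) ≃L[𝕜] EuclideanSpace 𝕜 (Fin 2))
      (T : Op 𝕜 (EuclideanSpace 𝕜 (Fin 2)) p),
      IsBoundedFamily S ∧ IsShiftOf S T ∧
      ∀ (k : ℕ) (w : Fin k → ℤ → 𝕜) (B : Fin k → Op 𝕜 𝕜 p),
        (∀ i, IsWeight (w i)) → (∀ i, IsWeightedShift (w i) (B i)) → ¬ IsConjToProduct T B := by
  let N : EuclideanSpace 𝕜 (Fin 2) →L[𝕜] EuclideanSpace 𝕜 (Fin 2) :=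
    (EuclideanSpace.proj (1 : Fin 2) : EuclideanSpace 𝕜 (Fin 2) →L[𝕜] 𝕜).smulRight
      (EuclideanSpace.single 0 1)
  let Q : EuclideanSpace 𝕜 (Fin 2) →L[𝕜] EuclideanSpace 𝕜 (Fin 2) :=
    (EuclideanSpace.proj (1 : Fin 2) : EuclideanSpace 𝕜 (Fin 2) →L[𝕜] 𝕜).smulRight
      (EuclideanSpace.single 1 1)
  have hNa : ∀ v, N v = v 1 • EuclideanSpace.single 0 (1 : 𝕜) := fun v => rfl
  have hQa : ∀ v, Q v = v 1 • EuclideanSpace.single 1 (1 : 𝕜) := fun v => rfl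
  have hN : N * N = 0 := by
    ext v i
    rw [mul_apply_eq_comp, hNa, hNa]
    simp
  have hQN : Q * N = 0 := by
    ext v i
    rw [mul_apply_eq_comp, hNa, hQa]
    simp
  have hNQ : N * Q = N := by
    ext v i
    rw [mul_apply_eq_comp, hNa, hQa, hNa]
    simp
  have hQQ : Q * Q = Q := by
    ext v i
    rw [mul_apply_eq_comp, hQa, hQa]
    simp
  have hv0 : N (EuclideanSpace.single 1 (1 : 𝕜)) ≠ 0 := by
    rw [hNa]
    intro h
    have := congrArg (fun v : EuclideanSpace 𝕜 (Fin 2) => v 0) h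
    simp at this
  refine ⟨fun _ => J N hN, op hp (Jn N 1) 1, ⟨max ‖(J N hN : EuclideanSpace 𝕜 (Fin 2) →L[𝕜] EuclideanSpace 𝕜 (Fin 2))‖
    ‖((J N hN).symm : EuclideanSpace 𝕜 (Fin 2) →L[𝕜] EuclideanSpace 𝕜 (Fin 2))‖,
    fun n => ⟨le_max_left _ _, le_max_right _ _⟩⟩, fun x n => rfl, ?_⟩
  rintro k w B hw hB ⟨H, hH⟩
  have hw0 : ∀ i n, w i n ≠ 0 := by
    intro i n h
    obtain ⟨c, C, hc, hcn⟩ := hw i
    have := (hcn n).1
    rw [h, norm_zero] at this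
    linarith
  exact main hp N Q hN hQN hNQ hQQ _ hv0 k w B hw0 hB H fun x => funext (hH x)

end Pool.Agent.Results.MP_43e0cc_an.NotProduct
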